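import Pool.Agent.Helper664_NT.Near4

/-!
# 2-near perfect numbers of the form `2^k * p^m`, `m ≥ 3`

For `m ≥ 4` there are none, and for `m = 3` they are exactly the numbers `2^k * p^3` with
`p = 2^(k+1) - 1` a Mersenne prime.  So the statement that for every `m ≥ 3` there are only finitely many holds if
and only if there are only finitely many Mersenne primes.
-/

open Finset

/-- `n` is 2-near perfect: `σ(n) = 2 n + d₁ + d₂` for two distinct positive divisors of `n`. -/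
def Pool.Agent.Results.MP_24a6f7_nt.MersenneEquivalence.TwoNearPerfect (n : ℕ) : Prop :=
  ∃ d₁ ∈ n.divisors, ∃ d₂ ∈ n.divisors, d₁ ≠ d₂ ∧ ∑ d ∈ n.divisors, d = 2 * n + d₁ + d₂

open Pool.Agent.Results.MP_24a6f7_nt.MersenneEquivalence

theorem Pool.Agent.Results.MP_24a6f7_nt.MersenneEquivalence.sigma_eq (k p m : ℕ) (hp : p.Prime) (ho : Odd p) :
    ∑ d ∈ (2 ^ k * p ^ m).divisors, d = (2 ^ (k + 1) - 1) * ∑ i ∈ range (m + 1), p ^ i := by
  have hcop : Nat.Coprime (2 ^ k) (p ^ m) :=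
    Nat.Coprime.pow k m (Nat.coprime_two_left.2 ho)
  rw [Nat.Coprime.sum_divisors_mul hcop, Nat.sum_divisors_prime_pow Nat.prime_two,
    Nat.sum_divisors_prime_pow hp, Nat.geomSum_eq (le_refl 2)]
  norm_num

theorem Pool.Agent.Results.MP_24a6f7_nt.MersenneEquivalence.none_of_ge (n k p : ℕ) (hk : 1 ≤ k) (hp : p.Prime) (ho : Odd p)
    (h : TwoNearPerfect (2 ^ k * p ^ (n + 3))) : n = 0 ∧ p + 1 = 2 ^ (k + 1) := by
  obtain ⟨d₁, h1, d₂, h2, hne, hs⟩ := h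
  have hp3 : 3 ≤ p := by
    have := hp.two_le
    rcases ho with ⟨r, hr⟩
    omega
  have hodd : p % 2 = 1 := Nat.odd_iff.1 ho
  have hdiv : ∀ d ∈ (2 ^ k * p ^ (n + 3)).divisors, ∃ a b, a ≤ k ∧ b ≤ n + 3 ∧ d = 2 ^ a * p ^ b := by
    intro d hd
    obtain ⟨u, v, hu, hv, huv⟩ := (Nat.dvd_mul).1 (Nat.dvd_of_mem_divisors hd)
    obtain ⟨a, ha, rfl⟩ := (Nat.dvd_prime_pow Nat.prime_two).1 hu
    obtain ⟨b, hb, rfl⟩ := (Nat.dvd_prime_pow hp).1 hv
    exact ⟨a, b, ha, hb, huv.symm⟩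
  obtain ⟨a, b, ha, hb, rfl⟩ := hdiv d₁ h1
  obtain ⟨c, d, hc, hd, rfl⟩ := hdiv d₂ h2
  rw [sigma_eq k p (n + 3) hp ho, sum_range_succ] at hs
  have hE : 2 ^ (k + 1) * (∑ i ∈ range (n + 3), p ^ i)
      = (∑ i ∈ range (n + 3), p ^ i) + p ^ (n + 3) + 2 ^ a * p ^ b + 2 ^ c * p ^ d := by
    have hN : 1 ≤ 2 ^ (k + 1) := Nat.one_le_two_pow
    obtain ⟨N, hN'⟩ : ∃ N, 2 ^ (k + 1) = N + 1 := ⟨2 ^ (k + 1) - 1, by omega⟩
    have e : 2 * (2 ^ k * p ^ (n + 3)) = 2 ^ (k + 1) * p ^ (n + 3) := by ring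
    rw [e, hN'] at hs
    rw [hN']
    simp only [Nat.add_sub_cancel] at hs
    linarith
  rcases lt_trichotomy a c with hac | hac | hac
  · refine MP24a6f7.core n p hp3 hodd k c a d b hk hc ha hd hb (Or.inl hac) ?_
    rw [hE]; ring
  · subst hac
    rcases lt_trichotomy b d with hbd | hbd | hbd
    · refine MP24a6f7.core n p hp3 hodd k a a d b hk hc ha hd hb (Or.inr ⟨rfl, hbd⟩) ?_
      rw [hE]; ring
    · subst hbd
      exact absurd rfl hne
    · exact MP24a6f7.core n p hp3 hodd k a a b d hk ha hc hb hd (Or.inr ⟨rfl, hbd⟩) hE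
  · exact MP24a6f7.core n p hp3 hodd k a c b d hk ha hc hb hd (Or.inl hac) hE

theorem Pool.Agent.Results.MP_24a6f7_nt.MersenneEquivalence.mersenne_near (k p : ℕ) (hp : p.Prime) (ho : Odd p)
    (h : p + 1 = 2 ^ (k + 1)) : TwoNearPerfect (2 ^ k * p ^ 3) := by
  have hn0 : 2 ^ k * p ^ 3 ≠ 0 := by
    have := hp.pos
    positivity
  refine ⟨p, Nat.mem_divisors.2 ⟨Dvd.intro_left (2 ^ k * p ^ 2) (by ring), hn0⟩, p ^ 2,
    Nat.mem_divisors.2 ⟨Dvd.intro_left (2 ^ k * p) (by ring), hn0⟩, ?_, ?_⟩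
  · intro he
    have h2 := hp.two_le
    nlinarith
  · rw [sigma_eq k p 3 hp ho, ← h]
    have e : 2 * (2 ^ k * p ^ 3) = 2 ^ (k + 1) * p ^ 3 := by ring
    rw [e, ← h]
    simp only [sum_range_succ, range_zero, sum_empty, Nat.add_sub_cancel]
    ring

theorem Pool.Agent.Results.MP_24a6f7_nt.MersenneEquivalence.result :
    -- no 2-near perfect number `2^k * p^m` with `m ≥ 4`
    (∀ m : ℕ, 4 ≤ m → ∀ k p : ℕ, 1 ≤ k → p.Prime → Odd p → ¬ TwoNearPerfect (2 ^ k * p ^ m)) ∧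
    -- for `m = 3`: exactly those with `p = 2^(k+1) - 1`
    (∀ k p : ℕ, 1 ≤ k → p.Prime → Odd p →
      (TwoNearPerfect (2 ^ k * p ^ 3) ↔ p + 1 = 2 ^ (k + 1))) ∧
    -- hence the statement of the question holds iff there are finitely many Mersenne primes
    ((∀ m : ℕ, 3 ≤ m →
        {n : ℕ | TwoNearPerfect n ∧ ∃ k p : ℕ, 1 ≤ k ∧ p.Prime ∧ Odd p ∧ n = 2 ^ k * p ^ m}.Finite) ↔
      {p : ℕ | p.Prime ∧ ∃ r : ℕ, p + 1 = 2 ^ r}.Finite) := by
  have h4 : ∀ m : ℕ, 4 ≤ m → ∀ k p : ℕ, 1 ≤ k → p.Prime → Odd p →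
      ¬ TwoNearPerfect (2 ^ k * p ^ m) := by
    intro m hm k p hk hp ho h
    obtain ⟨n, rfl⟩ : ∃ n, m = n + 3 := ⟨m - 3, by omega⟩
    have := (none_of_ge n k p hk hp ho h).1
    omega
  have h3 : ∀ k p : ℕ, 1 ≤ k → p.Prime → Odd p →
      (TwoNearPerfect (2 ^ k * p ^ 3) ↔ p + 1 = 2 ^ (k + 1)) := fun k p hk hp ho =>
    ⟨fun h => (none_of_ge 0 k p hk hp ho h).2, mersenne_near k p hp ho⟩
  refine ⟨h4, h3, ?_, ?_⟩
  · intro hfin
    have hinj : Set.InjOn (fun p : ℕ => (p + 1) / 2 * p ^ 3)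
        {p : ℕ | p.Prime ∧ ∃ r : ℕ, p + 1 = 2 ^ r} := by
      have hmono : ∀ p q : ℕ, p < q → 0 < q → p ≤ q → (p + 1) / 2 * p ^ 3 < (q + 1) / 2 * q ^ 3 := by
        intro p q hpq hq hle
        have e1 : (p + 1) / 2 ≤ (q + 1) / 2 := Nat.div_le_div_right (by omega)
        have e2 : p ^ 3 < q ^ 3 := Nat.pow_lt_pow_left hpq (by norm_num)
        have e3 : 0 < (q + 1) / 2 := by omega
        calc (p + 1) / 2 * p ^ 3 ≤ (q + 1) / 2 * p ^ 3 := Nat.mul_le_mul_right _ e1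
          _ < (q + 1) / 2 * q ^ 3 := Nat.mul_lt_mul_of_pos_left e2 e3
      intro p hp q hq hpq
      rcases lt_trichotomy p q with h | h | h
      · exact absurd hpq (hmono p q h (by omega) h.le).ne
      · exact h
      · exact absurd hpq (hmono q p h (by omega) h.le).ne'
    refine Set.Finite.of_finite_image ((hfin 3 le_rfl).subset ?_) hinj
    rintro n ⟨p, ⟨hp, r, hr⟩, rfl⟩
    have hr2 : 2 ≤ r := by
      by_contra hc
      have : r = 0 ∨ r = 1 := by omega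
      rcases this with h | h <;> rw [h] at hr <;> have := hp.two_le <;> omega
    obtain ⟨k, rfl⟩ : ∃ k, r = k + 1 := ⟨r - 1, by omega⟩
    have hodd : Odd p := by
      rw [Nat.odd_iff]
      have : 2 ^ (k + 1) = 2 * 2 ^ k := by ring
      omega
    have he : (p + 1) / 2 = 2 ^ k := by
      have : 2 ^ (k + 1) = 2 * 2 ^ k := by ring
      omega
    refine ⟨?_, k, p, by omega, hp, hodd, ?_⟩
    rotate_left
    · show (p + 1) / 2 * p ^ 3 = 2 ^ k * p ^ 3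
      rw [he]
    show TwoNearPerfect ((p + 1) / 2 * p ^ 3)
    rw [he]
    exact (h3 k p (by omega) hp hodd).2 hr
  · intro hfin m hm
    rcases eq_or_lt_of_le hm with h | h
    · subst h
      refine (hfin.image (fun p : ℕ => (p + 1) / 2 * p ^ 3)).subset ?_
      rintro n ⟨hn, k, p, hk, hp, ho, rfl⟩
      have hp1 := (h3 k p hk hp ho).1 hn
      refine ⟨p, ⟨hp, k + 1, hp1⟩, ?_⟩
      have he : (p + 1) / 2 = 2 ^ k := by
        have : 2 ^ (k + 1) = 2 * 2 ^ k := by ring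
        omega
      show (p + 1) / 2 * p ^ 3 = 2 ^ k * p ^ 3
      rw [he]
    · convert Set.finite_empty
      ext n
      simp only [Set.mem_ofPred_eq, Set.mem_empty_iff_false, iff_false, not_and, not_exists]
      intro hn k p hk hp ho he
      exact h4 m h k p hk hp ho (he ▸ hn)
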